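import Pool.Agent.H26R3.SlsRigid

/-!
# Continuum many surfaces with the same simple length spectrum (helper452)
-/

set_option autoImplicit false

namespace Pool.Agent.H452.SLS

open Pool.Agent.H26R3 UpperHalfPlane Cardinal

/-- a relation with countable classes on a set of size continuum has an independent set of size
continuum -/
theorem exists_indep {α : Type} (hα : #α = continuum) (r : α → α → Prop)
    (hs : ∀ X Y, r X Y → r Y X) (hc : ∀ X, {Y | r X Y}.Countable) :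
    ∃ e : α → α, Function.Injective e ∧ ∀ X Y, X ≠ Y → ¬ r (e X) (e Y) := by
  obtain ⟨M, hM⟩ := zorn_subset {M : Set α | ∀ X ∈ M, ∀ Y ∈ M, X ≠ Y → ¬ r X Y} (by
    intro c hc1 hc2
    refine ⟨⋃₀ c, ?_, fun s hs => Set.subset_sUnion_of_mem hs⟩
    rintro X ⟨s, hs, hXs⟩ Y ⟨t, ht, hYt⟩ hne
    rcases hc2.total hs ht with h | h
    · exact hc1 ht X (h hXs) Y hYt hne
    · exact hc1 hs X hXs Y (h hYt) hne)
  have hM1 : ∀ X ∈ M, ∀ Y ∈ M, X ≠ Y → ¬ r X Y := hM.prop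
  have hcov : (Set.univ : Set α) ⊆ ⋃ Y ∈ M, ({Y} ∪ {X | r Y X}) := by
    intro X _
    by_contra hX
    simp only [Set.mem_iUnion, Set.mem_union, Set.mem_singleton_iff, Set.mem_setOf_eq,
      exists_prop, not_exists, not_and, not_or] at hX
    have hXM : X ∉ M := fun h => (hX X h).1 rfl
    have h1 : insert X M ∈ {M : Set α | ∀ X ∈ M, ∀ Y ∈ M, X ≠ Y → ¬ r X Y} := by
      intro A hA B hB hne
      rcases hA with rfl | hA
      · rcases hB with rfl | hB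
        · exact absurd rfl hne
        · intro h
          exact (hX B hB).2 (hs _ _ h)
      · rcases hB with rfl | hB
        · intro h
          exact (hX A hA).2 h
        · exact hM1 A hA B hB hne
    exact hXM (hM.2 h1 (Set.subset_insert X M) (Set.mem_insert X M))
  have hcard : #α ≤ #M := by
    have h1 : #α ≤ #M * ℵ₀ := by
      calc #α = #(Set.univ : Set α) := mk_univ.symm
        _ ≤ #(⋃ Y ∈ M, ({Y} ∪ {X | r Y X}) : Set α) := mk_le_mk_of_subset hcov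
        _ = #(⋃ Y : M, ({Y.1} ∪ {X | r Y.1 X}) : Set α) := by rw [Set.biUnion_eq_iUnion]
        _ ≤ #M * ⨆ Y : M, #(({Y.1} ∪ {X | r Y.1 X} : Set α)) := mk_iUnion_le _
        _ ≤ #M * ℵ₀ := by
          gcongr
          apply ciSup_le'
          intro Y
          rw [le_aleph0_iff_set_countable]
          exact (Set.countable_singleton _).union (hc _)
    have h3 : ℵ₀ < #M := by
      by_contra h
      have h4 : #M * ℵ₀ ≤ ℵ₀ := (mul_le_mul_left (not_lt.1 h) _).trans (by simp)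
      have h5 : #α ≤ ℵ₀ := h1.trans h4
      rw [hα] at h5
      exact absurd h5 (not_le.2 aleph0_lt_continuum)
    rwa [mul_eq_left h3.le h3.le aleph0_ne_zero] at h1
  obtain ⟨f⟩ := (Cardinal.le_def _ _).1 hcard
  refine ⟨fun X => (f X).1, fun X Y h => f.injective (Subtype.ext h), fun X Y hne => ?_⟩
  exact hM1 _ (f X).2 _ (f Y).2 fun h => hne (f.injective (Subtype.ext h))

/-- only countably many members of the family are isometric to a given one -/
lemma countable_isometric (V : Verts) :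
    {ω : ℕ → Bool | IsometricSurfaces V.Gam (VV' ω).Gam}.Countable := by
  have hg0 : ∀ ω : {ω : ℕ → Bool | IsometricSurfaces V.Gam (VV' ω).Gam},
      ∃ g : ℍ ≃ᵢ ℍ, ∀ γ : ℍ ≃ᵢ ℍ, γ ∈ V.Gam ↔ g * γ * g⁻¹ ∈ (VV' ω.1).Gam := fun ω => ω.2
  choose g hg using hg0
  have hmem : ∀ n : ℤ, V.act [n, n + 1] ∈ V.Gam := fun n => ⟨[n, n + 1], by simp, rfl⟩
  let F : {ω : ℕ → Bool | IsometricSurfaces V.Gam (VV' ω).Gam} → Gall × Gall × Gall := fun ω =>
    (⟨g ω * V.act [0, 0 + 1] * (g ω)⁻¹, Gam_sub _ ((hg ω _).1 (hmem 0))⟩,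
     ⟨g ω * V.act [1, 1 + 1] * (g ω)⁻¹, Gam_sub _ ((hg ω _).1 (hmem 1))⟩,
     ⟨g ω * V.act [2, 2 + 1] * (g ω)⁻¹, Gam_sub _ ((hg ω _).1 (hmem 2))⟩)
  have hF : Function.Injective F := by
    intro ω ω' h
    have h0 : g ω * V.act [0, 0 + 1] * (g ω)⁻¹ = g ω' * V.act [0, 0 + 1] * (g ω')⁻¹ :=
      congrArg (fun t => (t.1 : ℍ ≃ᵢ ℍ)) h
    have h1 : g ω * V.act [1, 1 + 1] * (g ω)⁻¹ = g ω' * V.act [1, 1 + 1] * (g ω')⁻¹ :=
      congrArg (fun t => (t.2.1 : ℍ ≃ᵢ ℍ)) h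
    have h2 : g ω * V.act [2, 2 + 1] * (g ω)⁻¹ = g ω' * V.act [2, 2 + 1] * (g ω')⁻¹ :=
      congrArg (fun t => (t.2.2 : ℍ ≃ᵢ ℍ)) h
    have hcomm : ∀ γ : ℍ ≃ᵢ ℍ, g ω * γ * (g ω)⁻¹ = g ω' * γ * (g ω')⁻¹ →
        ∀ x, ((g ω')⁻¹ * g ω) (γ x) = γ (((g ω')⁻¹ * g ω) x) := by
      intro γ hγ x
      have h3 : (g ω')⁻¹ * g ω * γ = γ * ((g ω')⁻¹ * g ω) := by
        calc (g ω')⁻¹ * g ω * γ = (g ω')⁻¹ * (g ω * γ * (g ω)⁻¹) * g ω := by group
          _ = (g ω')⁻¹ * (g ω' * γ * (g ω')⁻¹) * g ω := by rw [hγ]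
          _ = γ * ((g ω')⁻¹ * g ω) := by group
      exact congrArg (fun e : ℍ ≃ᵢ ℍ => e x) h3
    have hone : (g ω')⁻¹ * g ω = 1 := by
      apply V.centralizer
      intro n hn x
      simp only [Set.mem_insert_iff, Set.mem_singleton_iff] at hn
      rcases hn with rfl | rfl | rfl
      · exact hcomm _ h0 x
      · exact hcomm _ h1 x
      · exact hcomm _ h2 x
    have hgg : g ω = g ω' := by
      have := inv_mul_eq_one.1 hone
      exact this.symm
    apply Subtype.ext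
    apply Gam_injective
    ext γ
    have e1 := hg ω ((g ω)⁻¹ * γ * g ω)
    have e2 := hg ω' ((g ω)⁻¹ * γ * g ω)
    rw [← hgg] at e2
    have e3 : g ω * ((g ω)⁻¹ * γ * g ω) * (g ω)⁻¹ = γ := by group
    rw [e3] at e1 e2
    exact e1.symm.trans e2
  have : Countable Gall := Gall_countable.to_subtype
  exact Set.countable_coe_iff.1 hF.countable

lemma isometric_symm {Γ Γ' : Subgroup (ℍ ≃ᵢ ℍ)} (h : IsometricSurfaces Γ Γ') :
    IsometricSurfaces Γ' Γ := by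
  obtain ⟨g, hg⟩ := h
  refine ⟨g⁻¹, fun γ => ?_⟩
  rw [hg]
  have e : g * (g⁻¹ * γ * g⁻¹⁻¹) * g⁻¹ = γ := by group
  rw [e]

end Pool.Agent.H452.SLS
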